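import Pool.Agent.W593.ZT.Stm

open scoped Classical

set_option autoImplicit false

namespace Pool.Agent.W249.ZT

open Pool.Agent.W593.ZT

theorem mem_tri {V G : Type} (c : V → V → G) {T : Finset V} {a b : V} (ha : a ∈ T) (hb : b ∈ T)
    (hab : a ≠ b) : c a b ∈ Tri c T := by
  unfold Tri
  rw [Finset.mem_image]
  exact ⟨(a, b), by simp [ha, hb, hab], rfl⟩

/-- a vertex that is not in `R` sees two colours -/
theorem n1_le {V G : Type} [Fintype V] [AddCommGroup G] [Fintype G] (c : V → V → G)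
    (sym : ∀ x y, c x y = c y x) (x p1 p2 : V) (g1 g2 : G) (T : Finset V) (hx : x ∈ T)
    (h1 : p1 ∈ T) (h2 : p2 ∈ T) (s1 : ∀ y, y ≠ x → c x y = g1 → c y p1 ≠ g1)
    (s2 : ∀ y, y ≠ x → c x y = g2 → c y p2 ≠ g2) : n1 c T ≤ (Rs c x g1 g2 \ T).card := by
  unfold n1
  apply Finset.card_le_card
  intro z hz
  rw [Finset.mem_filter, Finset.mem_sdiff] at hz
  obtain ⟨⟨_, hzT⟩, hz1⟩ := hz
  have hzx : z ≠ x := fun h => hzT (h ▸ hx)
  rw [Finset.mem_sdiff]
  refine ⟨?_, hzT⟩
  unfold Rs
  rw [Finset.mem_filter]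
  obtain ⟨u, hu⟩ := Finset.card_eq_one.mp hz1
  have hm : ∀ t ∈ T, c z t = u := by
    intro t ht
    have : c z t ∈ Cs c T z := Finset.mem_image_of_mem _ ht
    rw [hu, Finset.mem_singleton] at this
    exact this
  have hxz : c x z = u := by rw [sym]; exact hm x hx
  refine ⟨Finset.mem_univ _, hzx, ?_, ?_⟩
  · intro h
    exact s1 z hzx h (by rw [hm p1 h1, ← hxz, h])
  · intro h
    exact s2 z hzx h (by rw [hm p2 h2, ← hxz, h])

theorem two_le {V G : Type} {c : V → V → G} {T : Finset V} {a b : G} (ha : a ∈ Tri c T)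
    (hb : b ∈ Tri c T) (hab : a ≠ b) : 2 ≤ (Tri c T).card := by
  have h : ({a, b} : Finset G) ⊆ Tri c T := by
    intro z hz
    rw [Finset.mem_insert, Finset.mem_singleton] at hz
    rcases hz with rfl | rfl <;> assumption
  have h2 := Finset.card_le_card h
  rwa [Finset.card_pair hab] at h2

theorem ts (hmono : S_MONO) : S_TS := by
  intro V G _ _ _ c hc x g1 g2 hg hR
  have sym := hc.sym
  obtain ⟨p1, p1x, p1c, s1⟩ := hmono V G c hc x g1
  obtain ⟨p2, p2x, p2c, s2⟩ := hmono V G c hc x g2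
  have hV : 2 < Fintype.card V := by
    have h1 : 1 < Fintype.card G := Fintype.one_lt_card_iff.mpr ⟨g1, g2, hg⟩
    have h2 := hc.card
    omega
  have hRmem : ∀ z, z ∈ Rs c x g1 g2 ↔ z ≠ x ∧ c x z ≠ g1 ∧ c x z ≠ g2 := by
    intro z
    simp [Rs]
  by_cases hp : p1 = p2
  · subst hp
    have hpR : p1 ∈ Rs c x g1 g2 := (hRmem p1).mpr ⟨p1x, p1c, p2c⟩
    have hRs : ∀ z ∈ Rs c x g1 g2, z = p1 := fun z hz => Finset.card_le_one.mp hR z hz p1 hpR
    obtain ⟨w, hw⟩ : ∃ w : V, w ∉ ({x, p1} : Finset V) := by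
      by_contra hcon
      push Not at hcon
      have h1 : (Finset.univ : Finset V).card ≤ ({x, p1} : Finset V).card :=
        Finset.card_le_card (fun z _ => hcon z)
      have h2 : ({x, p1} : Finset V).card ≤ 2 := Finset.card_le_two
      rw [Finset.card_univ] at h1
      omega
    rw [Finset.mem_insert, Finset.mem_singleton, not_or] at hw
    obtain ⟨hwx, hwp⟩ := hw
    have hwR : w ∉ Rs c x g1 g2 := fun h => hwp (hRs w h)
    rw [hRmem] at hwR
    have hT3 : ({x, p1, w} : Finset V).card = 3 := by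
      rw [Finset.card_eq_three]
      exact ⟨x, p1, w, p1x.symm, Ne.symm hwx, Ne.symm hwp, rfl⟩
    have hxT : x ∈ ({x, p1, w} : Finset V) := by simp
    have hpT : p1 ∈ ({x, p1, w} : Finset V) := by simp
    have hwT : w ∈ ({x, p1, w} : Finset V) := by simp
    refine ⟨{x, p1, w}, p1, p1, ⟨hT3, hxT, hpT, hpT, p1x, p1x, p1c, p2c, s1, s2, ?_⟩⟩
    have hn : n1 c ({x, p1, w} : Finset V) ≤ 0 := by
      refine (n1_le c sym x p1 p1 g1 g2 _ hxT hpT hpT s1 s2).trans ?_
      rw [Nat.le_zero, Finset.card_eq_zero, Finset.sdiff_eq_empty_iff_subset]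
      intro z hz
      rw [hRs z hz]
      exact hpT
    have h2 : 2 ≤ (Tri c ({x, p1, w} : Finset V)).card := by
      refine two_le (mem_tri c hxT hpT p1x.symm) (mem_tri c hxT hwT (Ne.symm hwx)) ?_
      intro h
      apply hwR
      exact ⟨hwx, by rw [← h]; exact p1c, by rw [← h]; exact p2c⟩
    omega
  · have hT3 : ({x, p1, p2} : Finset V).card = 3 := by
      rw [Finset.card_eq_three]
      exact ⟨x, p1, p2, p1x.symm, p2x.symm, hp, rfl⟩
    have hxT : x ∈ ({x, p1, p2} : Finset V) := by simp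
    have h1T : p1 ∈ ({x, p1, p2} : Finset V) := by simp
    have h2T : p2 ∈ ({x, p1, p2} : Finset V) := by simp
    refine ⟨{x, p1, p2}, p1, p2, ⟨hT3, hxT, h1T, h2T, p1x, p2x, p1c, p2c, s1, s2, ?_⟩⟩
    have hn := n1_le c sym x p1 p2 g1 g2 _ hxT h1T h2T s1 s2
    by_cases h1R : p1 ∈ Rs c x g1 g2
    · have hRs : ∀ z ∈ Rs c x g1 g2, z = p1 := fun z hz => Finset.card_le_one.mp hR z hz p1 h1R
      have h0 : (Rs c x g1 g2 \ {x, p1, p2}).card = 0 := by
        rw [Finset.card_eq_zero, Finset.sdiff_eq_empty_iff_subset]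
        intro z hz
        rw [hRs z hz]
        exact h1T
      have h2R : p2 ∉ Rs c x g1 g2 := fun h => hp (hRs p2 h).symm
      rw [hRmem] at h2R h1R
      have h2 : 2 ≤ (Tri c ({x, p1, p2} : Finset V)).card := by
        refine two_le (mem_tri c hxT h1T p1x.symm) (mem_tri c hxT h2T p2x.symm) ?_
        intro h
        exact h2R ⟨p2x, by rw [← h]; exact h1R.2.1, p2c⟩
      omega
    · by_cases h2R : p2 ∈ Rs c x g1 g2
      · have hRs : ∀ z ∈ Rs c x g1 g2, z = p2 := fun z hz => Finset.card_le_one.mp hR z hz p2 h2R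
        have h0 : (Rs c x g1 g2 \ {x, p1, p2}).card = 0 := by
          rw [Finset.card_eq_zero, Finset.sdiff_eq_empty_iff_subset]
          intro z hz
          rw [hRs z hz]
          exact h2T
        rw [hRmem] at h2R h1R
        have h2 : 2 ≤ (Tri c ({x, p1, p2} : Finset V)).card := by
          refine two_le (mem_tri c hxT h1T p1x.symm) (mem_tri c hxT h2T p2x.symm) ?_
          intro h
          exact h1R ⟨p1x, p1c, by rw [h]; exact h2R.2.2⟩
        omega
      · rw [hRmem] at h2R h1R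
        have e1 : c x p1 = g2 := by
          by_contra h
          exact h1R ⟨p1x, p1c, h⟩
        have e2 : c x p2 = g1 := by
          by_contra h
          exact h2R ⟨p2x, h, p2c⟩
        have e3 : c p1 p2 ≠ g1 := by
          rw [sym]
          exact s1 p2 p2x e2
        have e4 : c p1 p2 ≠ g2 := s2 p1 p1x e1
        have h3 : 3 ≤ (Tri c ({x, p1, p2} : Finset V)).card := by
          have h : ({g1, g2, c p1 p2} : Finset G) ⊆ Tri c ({x, p1, p2} : Finset V) := by
            intro z hz
            rw [Finset.mem_insert, Finset.mem_insert, Finset.mem_singleton] at hz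
            rcases hz with h | h | h
            · rw [h, ← e2]
              exact mem_tri c hxT h2T p2x.symm
            · rw [h, ← e1]
              exact mem_tri c hxT h1T p1x.symm
            · rw [h]
              exact mem_tri c h1T h2T hp
          have h4 : ({g1, g2, c p1 p2} : Finset G).card = 3 := by
            rw [Finset.card_eq_three]
            exact ⟨g1, g2, c p1 p2, hg, e3.symm, e4.symm, rfl⟩
          rw [← h4]
          exact Finset.card_le_card h
        have h5 : (Rs c x g1 g2 \ {x, p1, p2}).card ≤ 1 :=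
          (Finset.card_le_card Finset.sdiff_subset).trans hR
        omega

end Pool.Agent.W249.ZT

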